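import Mathlib
import Pool.Agent.TH600.YT.Defs

set_option autoImplicit false

open MeasureTheory Real Set
open scoped ContDiff Topology

namespace Pool.Agent.TH597.YT742

open Pool.Agent.TH600.YT

/-- A basis of `ℝ × ℝ × ℝ`. -/
noncomputable def bas : Module.Basis (Fin 3) ℝ (ℝ × ℝ × ℝ) :=
  Module.Basis.ofEquivFun
    { toFun := fun p => ![p.1, p.2.1, p.2.2]
      invFun := fun v => (v 0, v 1, v 2)
      map_add' := by intro p q; ext i; fin_cases i <;> simp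
      map_smul' := by intro c p; ext i; fin_cases i <;> simp
      left_inv := by intro p; simp
      right_inv := by intro v; ext i; fin_cases i <;> simp }

lemma bas_repr (p : ℝ × ℝ × ℝ) (i : Fin 3) : bas.repr p i = ![p.1, p.2.1, p.2.2] i := by
  simp [bas]

lemma bas_0 : bas 0 = (1, 0, 0) := by
  simp [bas, Module.Basis.ofEquivFun]

lemma bas_1 : bas 1 = (0, 1, 0) := by
  simp [bas, Module.Basis.ofEquivFun]

lemma bas_2 : bas 2 = (0, 0, 1) := by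
  simp [bas, Module.Basis.ofEquivFun]

lemma det3 (A : (ℝ × ℝ × ℝ) →L[ℝ] (ℝ × ℝ × ℝ)) (a b c : ℝ × ℝ × ℝ)
    (ha : A (1, 0, 0) = a) (hb : A (0, 1, 0) = b) (hc : A (0, 0, 1) = c) :
    A.det = a.1 * b.2.1 * c.2.2 - a.1 * c.2.1 * b.2.2 - b.1 * a.2.1 * c.2.2 +
      b.1 * c.2.1 * a.2.2 + c.1 * a.2.1 * b.2.2 - c.1 * b.2.1 * a.2.2 := by
  rw [ContinuousLinearMap.det, ← LinearMap.det_toMatrix bas, Matrix.det_fin_three]
  simp only [LinearMap.toMatrix_apply, bas_repr, bas_0, bas_1, bas_2,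
    ContinuousLinearMap.coe_coe, ha, hb, hc]
  simp

lemma line1 {V : Type*} [NormedAddCommGroup V] [NormedSpace ℝ V] {f : ℝ × ℝ × ℝ → V}
    {x y z : ℝ} (hf : DifferentiableAt ℝ f (x, y, z)) :
    HasDerivAt (fun t => f (t, y, z)) (fderiv ℝ f (x, y, z) (1, 0, 0)) x := by
  have h1 : HasDerivAt (fun t : ℝ => ((t, y, z) : ℝ × ℝ × ℝ)) (1, 0, 0) x :=
    (hasDerivAt_id x).prodMk (hasDerivAt_const x (y, z))
  exact (hf.hasFDerivAt.comp_hasDerivAt x h1 :)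

lemma line2 {V : Type*} [NormedAddCommGroup V] [NormedSpace ℝ V] {f : ℝ × ℝ × ℝ → V}
    {x y z : ℝ} (hf : DifferentiableAt ℝ f (x, y, z)) :
    HasDerivAt (fun t => f (x, t, z)) (fderiv ℝ f (x, y, z) (0, 1, 0)) y := by
  have h1 : HasDerivAt (fun t : ℝ => ((x, t, z) : ℝ × ℝ × ℝ)) (0, 1, 0) y :=
    (hasDerivAt_const y x).prodMk ((hasDerivAt_id y).prodMk (hasDerivAt_const y z))
  exact (hf.hasFDerivAt.comp_hasDerivAt y h1 :)

lemma line3 {V : Type*} [NormedAddCommGroup V] [NormedSpace ℝ V] {f : ℝ × ℝ × ℝ → V}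
    {x y z : ℝ} (hf : DifferentiableAt ℝ f (x, y, z)) :
    HasDerivAt (fun t => f (x, y, t)) (fderiv ℝ f (x, y, z) (0, 0, 1)) z := by
  have h1 : HasDerivAt (fun t : ℝ => ((x, y, t) : ℝ × ℝ × ℝ)) (0, 0, 1) z :=
    (hasDerivAt_const z x).prodMk ((hasDerivAt_const z y).prodMk (hasDerivAt_id z))
  exact (hf.hasFDerivAt.comp_hasDerivAt z h1 :)

/-- The parametrization of the upper half space. -/
noncomputable def Psi (p : ℝ × ℝ × ℝ) : ℝ × ℝ × ℝ :=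
  (exp p.2.2 * (2 * p.1 / (1 + p.1 ^ 2 + p.2.1 ^ 2)),
    exp p.2.2 * (2 * p.2.1 / (1 + p.1 ^ 2 + p.2.1 ^ 2)),
    exp p.2.2 * ((1 - p.1 ^ 2 - p.2.1 ^ 2) / (1 + p.1 ^ 2 + p.2.1 ^ 2)))

lemma den_pos (x y : ℝ) : 0 < 1 + x ^ 2 + y ^ 2 := by positivity

lemma Psi_diff (p : ℝ × ℝ × ℝ) : DifferentiableAt ℝ Psi p := by
  have h : (1 + p.1 ^ 2 + p.2.1 ^ 2) ≠ 0 := (den_pos _ _).ne'
  unfold Psi
  fun_prop (disch := exact h)

lemma Psi_x (x y z : ℝ) : fderiv ℝ Psi (x, y, z) (1, 0, 0) =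
    (exp z * ((2 * (1 + x ^ 2 + y ^ 2) - 4 * x ^ 2) / (1 + x ^ 2 + y ^ 2) ^ 2),
      exp z * (- 4 * x * y / (1 + x ^ 2 + y ^ 2) ^ 2),
      exp z * (- 4 * x / (1 + x ^ 2 + y ^ 2) ^ 2)) := by
  refine (line1 (Psi_diff (x, y, z))).unique ?_
  have hd : HasDerivAt (fun t : ℝ => 1 + t ^ 2 + y ^ 2) (2 * x) x := by
    have := ((hasDerivAt_pow 2 x).const_add 1).add_const (y ^ 2)
    simpa using this
  have hne := (den_pos x y).ne'
  have c1 : HasDerivAt (fun t : ℝ => exp z * (2 * t / (1 + t ^ 2 + y ^ 2)))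
      (exp z * ((2 * (1 + x ^ 2 + y ^ 2) - 4 * x ^ 2) / (1 + x ^ 2 + y ^ 2) ^ 2)) x := by
    refine ((((hasDerivAt_id' x).const_mul 2).div hd hne).const_mul (exp z)).congr_deriv ?_
    field_simp; ring
  have c2 : HasDerivAt (fun t : ℝ => exp z * (2 * y / (1 + t ^ 2 + y ^ 2)))
      (exp z * (- 4 * x * y / (1 + x ^ 2 + y ^ 2) ^ 2)) x := by
    refine ((((hasDerivAt_const x (2 * y))).div hd hne).const_mul (exp z)).congr_deriv ?_
    field_simp; ring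
  have c3 : HasDerivAt (fun t : ℝ => exp z * ((1 - t ^ 2 - y ^ 2) / (1 + t ^ 2 + y ^ 2)))
      (exp z * (- 4 * x / (1 + x ^ 2 + y ^ 2) ^ 2)) x := by
    have h2 : HasDerivAt (fun t : ℝ => 1 - t ^ 2 - y ^ 2) (- (2 * x)) x := by
      have := ((hasDerivAt_pow 2 x).const_sub 1).sub_const (y ^ 2)
      simpa using this
    refine ((h2.div hd hne).const_mul (exp z)).congr_deriv ?_
    field_simp; ring
  exact c1.prodMk (c2.prodMk c3)

lemma Psi_y (x y z : ℝ) : fderiv ℝ Psi (x, y, z) (0, 1, 0) =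
    (exp z * (- 4 * x * y / (1 + x ^ 2 + y ^ 2) ^ 2),
      exp z * ((2 * (1 + x ^ 2 + y ^ 2) - 4 * y ^ 2) / (1 + x ^ 2 + y ^ 2) ^ 2),
      exp z * (- 4 * y / (1 + x ^ 2 + y ^ 2) ^ 2)) := by
  refine (line2 (Psi_diff (x, y, z))).unique ?_
  have hd : HasDerivAt (fun t : ℝ => 1 + x ^ 2 + t ^ 2) (2 * y) y := by
    have := ((hasDerivAt_pow 2 y).const_add (1 + x ^ 2))
    simpa using this
  have hne := (den_pos x y).ne'
  have c1 : HasDerivAt (fun t : ℝ => exp z * (2 * x / (1 + x ^ 2 + t ^ 2)))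
      (exp z * (- 4 * x * y / (1 + x ^ 2 + y ^ 2) ^ 2)) y := by
    refine ((((hasDerivAt_const y (2 * x))).div hd hne).const_mul (exp z)).congr_deriv ?_
    field_simp; ring
  have c2 : HasDerivAt (fun t : ℝ => exp z * (2 * t / (1 + x ^ 2 + t ^ 2)))
      (exp z * ((2 * (1 + x ^ 2 + y ^ 2) - 4 * y ^ 2) / (1 + x ^ 2 + y ^ 2) ^ 2)) y := by
    refine ((((hasDerivAt_id' y).const_mul 2).div hd hne).const_mul (exp z)).congr_deriv ?_
    field_simp; ring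
  have c3 : HasDerivAt (fun t : ℝ => exp z * ((1 - x ^ 2 - t ^ 2) / (1 + x ^ 2 + t ^ 2)))
      (exp z * (- 4 * y / (1 + x ^ 2 + y ^ 2) ^ 2)) y := by
    have h2 : HasDerivAt (fun t : ℝ => 1 - x ^ 2 - t ^ 2) (- (2 * y)) y := by
      have := ((hasDerivAt_pow 2 y).const_sub (1 - x ^ 2))
      simpa using this
    refine ((h2.div hd hne).const_mul (exp z)).congr_deriv ?_
    field_simp; ring
  exact c1.prodMk (c2.prodMk c3)

lemma Psi_z (x y z : ℝ) : fderiv ℝ Psi (x, y, z) (0, 0, 1) = Psi (x, y, z) := by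
  refine (line3 (Psi_diff (x, y, z))).unique ?_
  have c1 := (hasDerivAt_exp z).mul_const (2 * x / (1 + x ^ 2 + y ^ 2))
  have c2 := (hasDerivAt_exp z).mul_const (2 * y / (1 + x ^ 2 + y ^ 2))
  have c3 := (hasDerivAt_exp z).mul_const ((1 - x ^ 2 - y ^ 2) / (1 + x ^ 2 + y ^ 2))
  exact c1.prodMk (c2.prodMk c3)

lemma Ah_eq (x y z : ℝ) : Ah (x, y, z) = 4 / (1 + x ^ 2 + y ^ 2) ^ 2 := by
  simp only [Ah, TH600.YT.sq]
  rw [← add_assoc]

lemma Psi_det (x y z : ℝ) : (fderiv ℝ Psi (x, y, z)).det = exp z ^ 3 * Ah (x, y, z) := by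
  rw [det3 _ _ _ _ (Psi_x x y z) (Psi_y x y z) (Psi_z x y z), Ah_eq]
  have hne := (den_pos x y).ne'
  simp only [Psi]
  field_simp
  ring

/-- Euclidean norm. -/
noncomputable def rr (X : ℝ × ℝ × ℝ) : ℝ := √(X.1 ^ 2 + X.2.1 ^ 2 + X.2.2 ^ 2)

/-- The inverse of `Psi`. -/
noncomputable def Inv (X : ℝ × ℝ × ℝ) : ℝ × ℝ × ℝ :=
  (X.1 / (rr X + X.2.2), X.2.1 / (rr X + X.2.2), log (rr X))

lemma rr_sq (X : ℝ × ℝ × ℝ) : rr X ^ 2 = X.1 ^ 2 + X.2.1 ^ 2 + X.2.2 ^ 2 :=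
  Real.sq_sqrt (by positivity)

lemma rr_nonneg (X : ℝ × ℝ × ℝ) : 0 ≤ rr X := Real.sqrt_nonneg _

lemma rr_Psi (p : ℝ × ℝ × ℝ) : rr (Psi p) = exp p.2.2 := by
  obtain ⟨x, y, z⟩ := p
  have hne := (den_pos x y).ne'
  have : (Psi (x, y, z)).1 ^ 2 + (Psi (x, y, z)).2.1 ^ 2 + (Psi (x, y, z)).2.2 ^ 2 =
      exp z ^ 2 := by
    simp only [Psi]
    field_simp
    ring
  rw [rr, this, Real.sqrt_sq (exp_pos z).le]

lemma Inv_Psi (p : ℝ × ℝ × ℝ) : Inv (Psi p) = p := by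
  have h := rr_Psi p
  obtain ⟨x, y, z⟩ := p
  have hne := (den_pos x y).ne'
  have hE := (exp_pos z).ne'
  have h3 : rr (Psi (x, y, z)) + (Psi (x, y, z)).2.2 = 2 * exp z / (1 + x ^ 2 + y ^ 2) := by
    rw [h]
    simp only [Psi]
    field_simp
    ring
  have h4 : 2 * exp z / (1 + x ^ 2 + y ^ 2) ≠ 0 := by positivity
  simp only [Inv]
  rw [h3, h]
  simp only [Psi, Real.log_exp]
  refine Prod.ext ?_ (Prod.ext ?_ rfl)
  · simp only
    field_simp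
  · simp only
    field_simp

lemma rr_pos {X : ℝ × ℝ × ℝ} (h : 0 < X.2.2) : 0 < rr X :=
  Real.sqrt_pos.2 (by positivity)

lemma den_Inv {X : ℝ × ℝ × ℝ} (h : rr X + X.2.2 ≠ 0) :
    (1 + (X.1 / (rr X + X.2.2)) ^ 2 + (X.2.1 / (rr X + X.2.2)) ^ 2) =
      2 * rr X / (rr X + X.2.2) := by
  have h1 := rr_sq X
  field_simp
  nlinarith [h1]

lemma Psi_Inv {X : ℝ × ℝ × ℝ} (h : 0 < X.2.2) : Psi (Inv X) = X := by
  have hr := rr_pos h
  have hs : rr X + X.2.2 ≠ 0 := by positivity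
  have h1 := rr_sq X
  obtain ⟨a, b, c⟩ := X
  simp only [Psi, Inv]
  have h2 := den_Inv hs
  simp only at h2 hs h h1
  have h3 : 1 - (a / (rr (a, b, c) + c)) ^ 2 - (b / (rr (a, b, c) + c)) ^ 2 =
      2 * c / (rr (a, b, c) + c) := by
    field_simp
    nlinarith [h1]
  rw [h2, h3, Real.exp_log hr]
  refine Prod.ext ?_ (Prod.ext ?_ ?_)
  · simp only
    field_simp
  · simp only
    field_simp
  · simp only
    field_simp

lemma Inv_sq {X : ℝ × ℝ × ℝ} (h : 0 ≤ X.2.2) (hr : 0 < rr X) :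
    (Inv X).1 ^ 2 + (Inv X).2.1 ^ 2 ≤ 1 := by
  have hs : rr X + X.2.2 ≠ 0 := by positivity
  have h2 := den_Inv hs
  simp only [Inv]
  have h3 : 2 * rr X / (rr X + X.2.2) ≤ 2 := by
    rw [div_le_iff₀ (by positivity)]
    nlinarith
  linarith

lemma Inv_sq_lt {X : ℝ × ℝ × ℝ} (h : 0 < X.2.2) :
    (Inv X).1 ^ 2 + (Inv X).2.1 ^ 2 < 1 := by
  have hr := rr_pos h
  have hs : rr X + X.2.2 ≠ 0 := by positivity
  have h2 := den_Inv hs
  simp only [Inv]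
  have h3 : 2 * rr X / (rr X + X.2.2) < 2 := by
    rw [div_lt_iff₀ (by positivity)]
    nlinarith
  linarith

/-- The open cylinder. -/
def S : Set (ℝ × ℝ × ℝ) := {p | p.1 ^ 2 + p.2.1 ^ 2 < 1}

/-- The open half space. -/
def H : Set (ℝ × ℝ × ℝ) := {p | 0 < p.2.2}

lemma S_open : IsOpen S := by
  unfold S
  exact isOpen_lt (by fun_prop) (by fun_prop)

lemma H_open : IsOpen H := by
  unfold H
  exact isOpen_lt (by fun_prop) (by fun_prop)

lemma Psi_mem {p : ℝ × ℝ × ℝ} (hp : p ∈ S) : Psi p ∈ H := by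
  have hp' : p.1 ^ 2 + p.2.1 ^ 2 < 1 := hp
  have := den_pos p.1 p.2.1
  have h1 : 0 < 1 - p.1 ^ 2 - p.2.1 ^ 2 := by linarith
  change 0 < exp p.2.2 * ((1 - p.1 ^ 2 - p.2.1 ^ 2) / (1 + p.1 ^ 2 + p.2.1 ^ 2))
  positivity

lemma Psi_image : Psi '' S = H := by
  ext X
  constructor
  · rintro ⟨p, hp, rfl⟩
    exact Psi_mem hp
  · intro hX
    exact ⟨Inv X, Inv_sq_lt hX, Psi_Inv hX⟩

lemma Psi_inj : InjOn Psi S := by
  intro p _ q _ h
  rw [← Inv_Psi p, h, Inv_Psi]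

lemma Ah_pos (p : ℝ × ℝ × ℝ) : 0 < Ah p := by
  obtain ⟨x, y, z⟩ := p
  rw [Ah_eq]
  have := den_pos x y
  positivity

lemma haar3 : (volume : Measure (ℝ × ℝ × ℝ)).IsAddHaarMeasure := by
  have h1 : (volume : Measure (ℝ × ℝ)).IsAddHaarMeasure :=
    Measure.prod.instIsAddHaarMeasure volume volume
  exact Measure.prod.instIsAddHaarMeasure volume volume

lemma change (g : ℝ × ℝ × ℝ → ℝ) :
    ∫ X in H, g X = ∫ p in S, (exp p.2.2 ^ 3 * Ah p) * g (Psi p) := by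
  have := haar3
  rw [← Psi_image, integral_image_eq_integral_abs_det_fderiv_smul volume
    S_open.measurableSet (fun p _ => (Psi_diff p).hasFDerivAt.hasFDerivWithinAt) Psi_inj]
  refine setIntegral_congr_fun S_open.measurableSet ?_
  intro p _
  obtain ⟨x, y, z⟩ := p
  have h := Ah_pos (x, y, z)
  simp only [Psi_det, smul_eq_mul]
  rw [abs_of_pos (by positivity)]

/-- The gradient identity. -/
lemma grad_identity (x y E g1 g2 g3 : ℝ) (hE : E ≠ 0) :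
    (g1 * (E * ((2 * (1 + x ^ 2 + y ^ 2) - 4 * x ^ 2) / (1 + x ^ 2 + y ^ 2) ^ 2)) +
      g2 * (E * (- 4 * x * y / (1 + x ^ 2 + y ^ 2) ^ 2)) +
      g3 * (E * (- 4 * x / (1 + x ^ 2 + y ^ 2) ^ 2))) ^ 2 +
    (g1 * (E * (- 4 * x * y / (1 + x ^ 2 + y ^ 2) ^ 2)) +
      g2 * (E * ((2 * (1 + x ^ 2 + y ^ 2) - 4 * y ^ 2) / (1 + x ^ 2 + y ^ 2) ^ 2)) +
      g3 * (E * (- 4 * y / (1 + x ^ 2 + y ^ 2) ^ 2))) ^ 2 +
    4 / (1 + x ^ 2 + y ^ 2) ^ 2 *
    (g1 * (E * (2 * x / (1 + x ^ 2 + y ^ 2))) +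
      g2 * (E * (2 * y / (1 + x ^ 2 + y ^ 2))) +
      g3 * (E * ((1 - x ^ 2 - y ^ 2) / (1 + x ^ 2 + y ^ 2)))) ^ 2 =
    4 / (1 + x ^ 2 + y ^ 2) ^ 2 * E ^ 2 * (g1 ^ 2 + g2 ^ 2 + g3 ^ 2) := by
  have hne := (den_pos x y).ne'
  field_simp
  ring

/-! ### the transplanted function -/

/-- `X₁² + X₂² + X₃²`. -/
def n2 (X : ℝ × ℝ × ℝ) : ℝ := X.1 ^ 2 + X.2.1 ^ 2 + X.2.2 ^ 2

lemma n2_smooth {n : WithTop ℕ∞} : ContDiff ℝ n n2 := by
  unfold n2; fun_prop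

lemma rr_smooth {n : WithTop ℕ∞} {X : ℝ × ℝ × ℝ} (h : n2 X ≠ 0) : ContDiffAt ℝ n rr X := by
  have : ContDiffAt ℝ n n2 X := n2_smooth.contDiffAt
  exact this.sqrt h

lemma rr_pos' {X : ℝ × ℝ × ℝ} (h : n2 X ≠ 0) : 0 < rr X := by
  refine Real.sqrt_pos.2 (lt_of_le_of_ne (by positivity) ?_)
  intro h2
  exact h h2.symm

lemma Inv_smooth {n : WithTop ℕ∞} {X : ℝ × ℝ × ℝ} (h : n2 X ≠ 0) (h3 : 0 ≤ X.2.2) :
    ContDiffAt ℝ n Inv X := by
  have h1 := rr_smooth (n := n) h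
  have h2 := rr_pos' h
  have hs : rr X + X.2.2 ≠ 0 := by positivity
  have c1 : ContDiffAt ℝ n (fun X : ℝ × ℝ × ℝ => X.1) X := by fun_prop
  have c2 : ContDiffAt ℝ n (fun X : ℝ × ℝ × ℝ => X.2.1) X := by fun_prop
  have c3 : ContDiffAt ℝ n (fun X : ℝ × ℝ × ℝ => X.2.2) X := by fun_prop
  exact (c1.div (h1.add c3) hs).prodMk ((c2.div (h1.add c3) hs).prodMk (h1.log h2.ne'))

/-- The transplanted function, before cutting off at the origin. -/
noncomputable def F (w : ℝ × ℝ × ℝ → ℝ) (X : ℝ × ℝ × ℝ) : ℝ := (√(rr X))⁻¹ * w (Inv X)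

/-- The transplanted function. -/
noncomputable def U (w : ℝ × ℝ × ℝ → ℝ) (M : ℝ) (X : ℝ × ℝ × ℝ) : ℝ :=
  Real.smoothTransition (2 * exp M ^ 2 * n2 X - 1) * F w X

section main

variable {w : ℝ × ℝ × ℝ → ℝ}
    (hw : ∀ x y z : ℝ, x ^ 2 + y ^ 2 ≤ 1 → ContDiffAt ℝ 1 w (x, y, z))
    (h0 : ∀ x y z : ℝ, x ^ 2 + y ^ 2 ≤ 1 → 0 ≤ w (x, y, z)) {M : ℝ}
    (hM : ∀ x y z : ℝ, x ^ 2 + y ^ 2 ≤ 1 → M ≤ |z| → w (x, y, z) = 0)

include hw in
lemma F_smooth {X : ℝ × ℝ × ℝ} (h : n2 X ≠ 0) (h3 : 0 ≤ X.2.2) : ContDiffAt ℝ 1 (F w) X := by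
  have h1 := rr_smooth (n := 1) h
  have h2 := rr_pos' h
  have h4 : ContDiffAt ℝ 1 w (Inv X) := hw _ _ _ (Inv_sq h3 h2)
  exact ((h1.sqrt h2.ne').inv (Real.sqrt_pos.2 h2).ne').mul (h4.comp X (Inv_smooth h h3))

include hw in
lemma U_smooth (X : ℝ × ℝ × ℝ) (h3 : 0 ≤ X.2.2) : ContDiffAt ℝ 1 (U w M) X := by
  by_cases h : n2 X = 0
  · have hc : ContinuousAt (fun X => 2 * exp M ^ 2 * n2 X - 1) X := by
      have := (n2_smooth (n := 0)).continuous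
      fun_prop
    have hlt : ∀ᶠ Y in 𝓝 X, 2 * exp M ^ 2 * n2 Y - 1 < 0 := by
      refine hc.eventually_lt continuousAt_const ?_
      rw [h]; norm_num
    have hz : U w M =ᶠ[𝓝 X] fun _ => 0 := by
      filter_upwards [hlt] with Y hY
      simp [U, Real.smoothTransition.zero_of_nonpos hY.le]
    exact contDiffAt_const.congr_of_eventuallyEq hz
  · have h1 : ContDiffAt ℝ 1 (fun X => Real.smoothTransition (2 * exp M ^ 2 * n2 X - 1)) X := by
      have h5 : ContDiff ℝ 1 (fun X => 2 * exp M ^ 2 * n2 X - 1) :=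
        (contDiff_const.mul n2_smooth).sub contDiff_const
      exact (Real.smoothTransition.contDiff.comp h5).contDiffAt
    exact h1.mul (F_smooth hw h h3)

include h0 in
lemma F_nonneg {X : ℝ × ℝ × ℝ} (h : n2 X ≠ 0) (h3 : 0 ≤ X.2.2) : 0 ≤ F w X := by
  have h2 := rr_pos' h
  have := h0 _ _ (Inv X).2.2 (Inv_sq h3 h2)
  exact mul_nonneg (by positivity) this

include h0 in
lemma U_nonneg (X : ℝ × ℝ × ℝ) (h3 : 0 ≤ X.2.2) : 0 ≤ U w M X := by
  by_cases h : n2 X = 0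
  · have : 2 * exp M ^ 2 * n2 X - 1 ≤ 0 := by rw [h]; norm_num
    simp [U, Real.smoothTransition.zero_of_nonpos this]
  · exact mul_nonneg (Real.smoothTransition.nonneg _) (F_nonneg h0 h h3)

lemma norm_le_rr (X : ℝ × ℝ × ℝ) : ‖X‖ ≤ rr X := by
  have h1 := rr_sq X
  have h2 := rr_nonneg X
  refine max_le ?_ (max_le ?_ ?_)
  · refine abs_le_of_sq_le_sq ?_ h2
    nlinarith [sq_nonneg X.2.1, sq_nonneg X.2.2]
  · refine abs_le_of_sq_le_sq ?_ h2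
    nlinarith [sq_nonneg X.1, sq_nonneg X.2.2]
  · refine abs_le_of_sq_le_sq ?_ h2
    nlinarith [sq_nonneg X.2.1, sq_nonneg X.1]

lemma n2_eq (X : ℝ × ℝ × ℝ) : n2 X = rr X ^ 2 := (rr_sq X).symm

include hM in
lemma U_far (X : ℝ × ℝ × ℝ) (h3 : 0 ≤ X.2.2) (hX : exp M ≤ ‖X‖) : U w M X = 0 := by
  have h1 := hX.trans (norm_le_rr X)
  have h2 : 0 < rr X := lt_of_lt_of_le (exp_pos M) h1
  have h4 : M ≤ log (rr X) := (Real.le_log_iff_exp_le h2).2 h1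
  have := hM _ _ (Inv X).2.2 (Inv_sq h3 h2) (h4.trans (le_abs_self _))
  have h5 : w (Inv X) = 0 := this
  simp [U, F, h5]

include hM in
lemma U_eq_F {X : ℝ × ℝ × ℝ} (h3 : 0 < X.2.2) : U w M X = F w X := by
  have h2 := rr_pos h3
  by_cases h : exp (-M) ≤ rr X
  · have h5 : 1 ≤ 2 * exp M ^ 2 * n2 X - 1 := by
      rw [n2_eq]
      have h6 : 1 ≤ exp M * rr X := by
        have := mul_le_mul_of_nonneg_left h (exp_pos M).le
        rwa [← Real.exp_add, add_neg_cancel, Real.exp_zero] at this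
      nlinarith
    simp [U, Real.smoothTransition.one_of_one_le h5]
  · push Not at h
    have h4 : log (rr X) < - M := (Real.log_lt_iff_lt_exp h2).2 h
    have h6 : M ≤ |(Inv X).2.2| := by
      have : (Inv X).2.2 = log (rr X) := rfl
      rw [this]
      have := neg_le_abs (log (rr X))
      linarith
    have h5 : w (Inv X) = 0 := hM _ _ (Inv X).2.2 (Inv_sq h3.le h2) h6
    simp [U, F, h5]

include hM in
lemma fderiv_U {X : ℝ × ℝ × ℝ} (h3 : 0 < X.2.2) : fderiv ℝ (U w M) X = fderiv ℝ (F w) X := by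
  refine Filter.EventuallyEq.fderiv_eq ?_
  filter_upwards [H_open.mem_nhds h3] with Y hY
  exact U_eq_F hM hY

lemma F_Psi (p : ℝ × ℝ × ℝ) : F w (Psi p) = (exp (p.2.2 / 2))⁻¹ * w p := by
  rw [F, rr_Psi, Inv_Psi, Real.exp_half]

lemma w_eq (p : ℝ × ℝ × ℝ) : w p = exp (p.2.2 / 2) * F w (Psi p) := by
  rw [F_Psi, ← mul_assoc, mul_inv_cancel₀ (exp_pos _).ne', one_mul]

lemma n2_ne {X : ℝ × ℝ × ℝ} (h : 0 < X.2.2) : n2 X ≠ 0 := by
  unfold n2; positivity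

lemma clm_apply (L : (ℝ × ℝ × ℝ) →L[ℝ] ℝ) (v : ℝ × ℝ × ℝ) :
    L v = L (1, 0, 0) * v.1 + L (0, 1, 0) * v.2.1 + L (0, 0, 1) * v.2.2 := by
  have : v = v.1 • (1, 0, 0) + v.2.1 • (0, 1, 0) + v.2.2 • (0, 0, 1) := by
    ext <;> simp
  conv_lhs => rw [this]
  simp only [map_add, map_smul, smul_eq_mul]
  ring

include hw in
lemma grad (p : ℝ × ℝ × ℝ) (hp : p ∈ S) :
    (exp p.2.2 ^ 3 * Ah p) * ((D1 (F w) (Psi p)) ^ 2 + (D2 (F w) (Psi p)) ^ 2 +
      (D3 (F w) (Psi p)) ^ 2) =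
    (D1 w p) ^ 2 + (D2 w p) ^ 2 + Ah p * (D3 w p - w p / 2) ^ 2 := by
  have hmem := Psi_mem hp
  have hF : DifferentiableAt ℝ (F w) (Psi p) :=
    (F_smooth hw (n2_ne hmem) (le_of_lt hmem)).differentiableAt (by norm_num)
  obtain ⟨x, y, z⟩ := p
  have hwd : DifferentiableAt ℝ w (x, y, z) :=
    (hw x y z (le_of_lt hp)).differentiableAt (by norm_num)
  have e1 : D1 w (x, y, z) = exp (z / 2) *
      fderiv ℝ (F w) (Psi (x, y, z)) (fderiv ℝ Psi (x, y, z) (1, 0, 0)) := by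
    refine (line1 hwd).unique ?_
    have := (hF.hasFDerivAt.comp_hasDerivAt x (line1 (Psi_diff (x, y, z)))).const_mul
      (exp (z / 2))
    refine this.congr_of_eventuallyEq (Filter.Eventually.of_forall fun t => ?_)
    exact w_eq (t, y, z)
  have e2 : D2 w (x, y, z) = exp (z / 2) *
      fderiv ℝ (F w) (Psi (x, y, z)) (fderiv ℝ Psi (x, y, z) (0, 1, 0)) := by
    refine (line2 hwd).unique ?_
    have := (hF.hasFDerivAt.comp_hasDerivAt y (line2 (Psi_diff (x, y, z)))).const_mul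
      (exp (z / 2))
    refine this.congr_of_eventuallyEq (Filter.Eventually.of_forall fun t => ?_)
    exact w_eq (x, t, z)
  have e3 : D3 w (x, y, z) = exp (z / 2) *
      fderiv ℝ (F w) (Psi (x, y, z)) (fderiv ℝ Psi (x, y, z) (0, 0, 1)) +
      w (x, y, z) / 2 := by
    refine (line3 hwd).unique ?_
    have h1 := (hF.hasFDerivAt.comp_hasDerivAt z (line3 (Psi_diff (x, y, z))))
    have h2 : HasDerivAt (fun t : ℝ => exp (t / 2)) (exp (z / 2) * (1 / 2)) z :=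
      ((hasDerivAt_id z).div_const 2).exp
    have h3 := h2.mul h1
    refine (h3.congr_deriv ?_).congr_of_eventuallyEq (Filter.Eventually.of_forall fun t => ?_)
    · rw [w_eq (w := w) (x, y, z)]
      simp only [Function.comp]
      ring
    · exact w_eq (x, y, t)
  rw [clm_apply, Psi_x] at e1
  rw [clm_apply, Psi_y] at e2
  rw [clm_apply, Psi_z] at e3
  have hexp : exp (z / 2) ^ 2 = exp z := by
    rw [← Real.exp_nat_mul]; congr 1; push_cast; ring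
  set g1 := fderiv ℝ (F w) (Psi (x, y, z)) (1, 0, 0) with hg1
  set g2 := fderiv ℝ (F w) (Psi (x, y, z)) (0, 1, 0) with hg2
  set g3 := fderiv ℝ (F w) (Psi (x, y, z)) (0, 0, 1) with hg3
  have key := grad_identity x y (exp z) g1 g2 g3 (exp_pos z).ne'
  have hD1 : D1 (F w) (Psi (x, y, z)) = g1 := rfl
  have hD2 : D2 (F w) (Psi (x, y, z)) = g2 := rfl
  have hD3 : D3 (F w) (Psi (x, y, z)) = g3 := rfl
  rw [hD1, hD2, hD3, Ah_eq]
  rw [e1, e2, e3]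
  clear_value g1 g2 g3
  simp only [Psi]
  rw [add_sub_cancel_right]
  simp only [mul_pow (exp (z / 2)), hexp]
  linear_combination (-exp z) * key

end main

/-! ### integrability -/

lemma intS {g : ℝ × ℝ × ℝ → ℝ} (M' : ℝ)
    (hg : ∀ p : ℝ × ℝ × ℝ, p.1 ^ 2 + p.2.1 ^ 2 ≤ 1 → ContinuousAt g p)
    (h0 : ∀ p ∈ S, M' < |p.2.2| → g p = 0) : IntegrableOn g S := by
  set K : Set (ℝ × ℝ × ℝ) := {p | p.1 ^ 2 + p.2.1 ^ 2 ≤ 1 ∧ |p.2.2| ≤ M'} with hK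
  have hKc : IsClosed K := by
    have k1 : IsClosed {p : ℝ × ℝ × ℝ | p.1 ^ 2 + p.2.1 ^ 2 ≤ 1} :=
      isClosed_le (by fun_prop) (by fun_prop)
    have k2 : IsClosed {p : ℝ × ℝ × ℝ | |p.2.2| ≤ M'} :=
      isClosed_le (by fun_prop) (by fun_prop)
    exact k1.inter k2
  have hsub : K ⊆ Icc (-1 : ℝ) 1 ×ˢ (Icc (-1 : ℝ) 1 ×ˢ Icc (-M') M') := by
    rintro ⟨x, y, z⟩ ⟨h1, h2⟩
    simp only at h1 h2
    refine ⟨⟨?_, ?_⟩, ⟨?_, ?_⟩, ?_⟩
    · simp only; nlinarith [sq_nonneg y]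
    · simp only; nlinarith [sq_nonneg y]
    · simp only; nlinarith [sq_nonneg x]
    · simp only; nlinarith [sq_nonneg x]
    · exact abs_le.1 h2
  have hKK : IsCompact K :=
    (isCompact_Icc.prod (isCompact_Icc.prod isCompact_Icc)).of_isClosed_subset hKc hsub
  have h1 : IntegrableOn g K :=
    ContinuousOn.integrableOn_compact hKK (fun p hp => (hg p hp.1).continuousWithinAt)
  have h2 : IntegrableOn g (S \ K) := by
    have : IntegrableOn (fun _ : ℝ × ℝ × ℝ => (0 : ℝ)) (S \ K) := integrableOn_zero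
    refine this.congr_fun ?_ (S_open.measurableSet.diff hKc.measurableSet)
    intro p hp
    have : M' < |p.2.2| := by
      by_contra h
      exact hp.2 ⟨le_of_lt hp.1, not_lt.1 h⟩
    exact (h0 p hp.1 this).symm
  refine (h1.union h2).mono_set ?_
  intro p hp
  by_cases h : p ∈ K
  · exact Or.inl h
  · exact Or.inr ⟨hp, h⟩

lemma Ah_cont : Continuous Ah := by
  have : Ah = fun p : ℝ × ℝ × ℝ => 4 / (1 + p.1 ^ 2 + p.2.1 ^ 2) ^ 2 := by
    funext p; exact Ah_eq p.1 p.2.1 p.2.2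
  rw [this]
  refine Continuous.div₀ (by fun_prop) (by fun_prop) ?_
  intro p
  have := den_pos p.1 p.2.1
  positivity

section parts

variable {w : ℝ × ℝ × ℝ → ℝ}
    (hw : ∀ x y z : ℝ, x ^ 2 + y ^ 2 ≤ 1 → ContDiffAt ℝ 1 w (x, y, z)) {M : ℝ}
    (hM : ∀ x y z : ℝ, x ^ 2 + y ^ 2 ≤ 1 → M ≤ |z| → w (x, y, z) = 0)

include hw in
lemma fd_cont (p : ℝ × ℝ × ℝ) (hp : p.1 ^ 2 + p.2.1 ^ 2 ≤ 1) (v : ℝ × ℝ × ℝ) :
    ContinuousAt (fun q => fderiv ℝ w q v) p := by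
  have h1 : ContDiffAt ℝ 0 (fderiv ℝ w) p :=
    (hw p.1 p.2.1 p.2.2 hp).fderiv_right (by norm_num)
  have h2 : ContinuousAt (fderiv ℝ w) p := h1.continuousAt
  exact h2.clm_apply continuousAt_const

include hw in
lemma w_cont (p : ℝ × ℝ × ℝ) (hp : p.1 ^ 2 + p.2.1 ^ 2 ≤ 1) : ContinuousAt w p :=
  (hw p.1 p.2.1 p.2.2 hp).continuousAt

include hM in
lemma fd_zero (p : ℝ × ℝ × ℝ) (hp : p ∈ S) (h : M < |p.2.2|) (v : ℝ × ℝ × ℝ) :
    fderiv ℝ w p v = 0 := by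
  have h1 : w =ᶠ[𝓝 p] fun _ => 0 := by
    have h2 : IsOpen {q : ℝ × ℝ × ℝ | M < |q.2.2|} := isOpen_lt (by fun_prop) (by fun_prop)
    filter_upwards [S_open.mem_nhds hp, h2.mem_nhds h] with q hq hq2
    exact hM q.1 q.2.1 q.2.2 (le_of_lt hq) (le_of_lt hq2)
  rw [h1.fderiv_eq]
  simp

include hw hM in
lemma zero_int : ∫ p in S, Ah p * (2 * w p * D3 w p) = 0 := by
  have := haar3
  have hS := S_open.measurableSet
  have hi1 : IntegrableOn (fun p => Ah p * (2 * w p * D3 w p)) S := by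
    refine intS M (fun p hp => ?_) (fun p hp h => ?_)
    · exact Ah_cont.continuousAt.mul ((continuousAt_const.mul (w_cont hw p hp)).mul
        (fd_cont hw p hp _))
    · simp [D3, fd_zero hM p hp h]
  have hi2 : IntegrableOn (fun p => Ah p * (w p) ^ 2) S := by
    refine intS M (fun p hp => ?_) (fun p hp h => ?_)
    · exact Ah_cont.continuousAt.mul ((w_cont hw p hp).pow 2)
    · have : w p = 0 := hM p.1 p.2.1 p.2.2 (le_of_lt hp) h.le
      simp [this]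
  have key := integral_bilinear_hasLineDerivAt_right_eq_neg_left_of_integrable
    (μ := (volume : Measure (ℝ × ℝ × ℝ)))
    (f := indicator S (fun p => Ah p * (w p) ^ 2))
    (f' := indicator S (fun p => Ah p * (2 * w p * D3 w p)))
    (g := fun _ => (1 : ℝ)) (g' := fun _ => (0 : ℝ)) (v := ((0, 0, 1) : ℝ × ℝ × ℝ))
    (B := ContinuousLinearMap.mul ℝ ℝ) ?_ ?_ ?_ ?_ ?_
  · simp only [ContinuousLinearMap.mul_apply', mul_zero, integral_zero, mul_one] at key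
    rw [integral_indicator hS] at key
    linarith
  · simp only [ContinuousLinearMap.mul_apply', mul_one]
    exact (integrable_indicator_iff hS).2 hi1
  · simp
  · simp only [ContinuousLinearMap.mul_apply', mul_one]
    exact (integrable_indicator_iff hS).2 hi2
  · rintro ⟨x, y, z⟩ _
    have hiff : ∀ t : ℝ, ((x, y, z) + t • ((0, 0, 1) : ℝ × ℝ × ℝ)) = (x, y, z + t) := by
      intro t; ext <;> simp
    change HasDerivAt _ _ _
    simp only [hiff]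
    by_cases hp : (x, y, z) ∈ S
    · have hp' : ∀ t, (x, y, t) ∈ S := fun t => hp
      rw [indicator_of_mem hp]
      simp only [indicator_of_mem (hp' _)]
      have hd : HasDerivAt (fun t => w (x, y, t)) (D3 w (x, y, z)) (z + 0) := by
        rw [add_zero]
        exact line3 ((hw x y z (le_of_lt hp)).differentiableAt (by norm_num))
      have h2 := (hd.comp_const_add z 0).pow 2
      have h3 := h2.const_mul (Ah (x, y, z))
      have hA : ∀ t, Ah (x, y, t) = Ah (x, y, z) := fun t => by rw [Ah_eq, Ah_eq]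
      simp only [hA]
      refine h3.congr_deriv ?_
      simp
    · have hp' : ∀ t, (x, y, t) ∉ S := fun t => hp
      rw [indicator_of_notMem hp]
      simp only [indicator_of_notMem (hp' _)]
      exact hasDerivAt_const _ _
  · intro x _
    exact hasDerivAt_const _ _

include hw hM in
lemma energy :
    8 * ∫ p in S, ((D1 w p) ^ 2 + (D2 w p) ^ 2 + Ah p * (D3 w p - w p / 2) ^ 2) =
      ∫ p in S, (8 * ((D1 w p) ^ 2 + (D2 w p) ^ 2) +
        Ah p * (8 * (D3 w p) ^ 2 + 2 * (w p) ^ 2)) := by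
  have hz := zero_int hw hM
  have hi1 : IntegrableOn (fun p => Ah p * (2 * w p * D3 w p)) S := by
    refine intS M (fun p hp => ?_) (fun p hp h => ?_)
    · exact Ah_cont.continuousAt.mul ((continuousAt_const.mul (w_cont hw p hp)).mul
        (fd_cont hw p hp _))
    · simp [D3, fd_zero hM p hp h]
  have hi2 : IntegrableOn (fun p => (8 * ((D1 w p) ^ 2 + (D2 w p) ^ 2) +
        Ah p * (8 * (D3 w p) ^ 2 + 2 * (w p) ^ 2))) S := by
    refine intS M (fun p hp => ?_) (fun p hp h => ?_)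
    · have c1 : ContinuousAt (D1 w) p := fd_cont hw p hp _
      have c2 : ContinuousAt (D2 w) p := fd_cont hw p hp _
      have c3 : ContinuousAt (D3 w) p := fd_cont hw p hp _
      have c4 := w_cont hw p hp
      have c5 := Ah_cont.continuousAt (x := p)
      fun_prop
    · have : w p = 0 := hM p.1 p.2.1 p.2.2 (le_of_lt hp) h.le
      simp [D1, D2, D3, fd_zero hM p hp h, this]
  have hsub := integral_sub hi2 (hi1.const_mul 4)
  rw [← integral_const_mul]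
  rw [integral_const_mul, hz, mul_zero, sub_zero] at hsub
  rw [← hsub]
  refine integral_congr_ae (Filter.Eventually.of_forall fun p => ?_)
  simp only
  ring

end parts

theorem hemi_line
    (halfSpace : ∀ (U : ℝ × ℝ × ℝ → ℝ),
      (∀ p : ℝ × ℝ × ℝ, 0 ≤ p.2.2 → ContDiffAt ℝ 1 U p) →
      (∀ p : ℝ × ℝ × ℝ, 0 ≤ p.2.2 → 0 ≤ U p) → ∀ M : ℝ,
      (∀ p : ℝ × ℝ × ℝ, 0 ≤ p.2.2 → M ≤ ‖p‖ → U p = 0) →
      216 * π ^ 4 * (∫ p in {p : ℝ × ℝ × ℝ | 0 < p.2.2}, U p ^ 6) ≤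
        (8 * ∫ p in {p : ℝ × ℝ × ℝ | 0 < p.2.2},
          ((D1 U p) ^ 2 + (D2 U p) ^ 2 + (D3 U p) ^ 2)) ^ 3)
    (w : ℝ × ℝ × ℝ → ℝ)
    (hw : ∀ x y z : ℝ, x ^ 2 + y ^ 2 ≤ 1 → ContDiffAt ℝ 1 w (x, y, z))
    (h0 : ∀ x y z : ℝ, x ^ 2 + y ^ 2 ≤ 1 → 0 ≤ w (x, y, z)) (M : ℝ)
    (hM : ∀ x y z : ℝ, x ^ 2 + y ^ 2 ≤ 1 → M ≤ |z| → w (x, y, z) = 0) :
    216 * π ^ 4 * (∫ p in {p : ℝ × ℝ × ℝ | p.1 ^ 2 + p.2.1 ^ 2 < 1}, Ah p * w p ^ 6) ≤
      (∫ p in {p : ℝ × ℝ × ℝ | p.1 ^ 2 + p.2.1 ^ 2 < 1},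
        (8 * ((D1 w p) ^ 2 + (D2 w p) ^ 2) + Ah p * (8 * (D3 w p) ^ 2 + 2 * (w p) ^ 2))) ^ 3 := by
  have main := halfSpace (U w M) (U_smooth hw) (U_nonneg h0) (exp M) (U_far hM)
  have e1 : ∫ p in {p : ℝ × ℝ × ℝ | 0 < p.2.2}, U w M p ^ 6 = ∫ p in S, Ah p * w p ^ 6 := by
    change ∫ p in H, U w M p ^ 6 = _
    rw [change]
    refine setIntegral_congr_fun S_open.measurableSet fun p hp => ?_
    rw [U_eq_F hM (Psi_mem hp), F_Psi]
    have hexp : exp (p.2.2 / 2) ^ 6 = exp p.2.2 ^ 3 := by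
      rw [← Real.exp_nat_mul, ← Real.exp_nat_mul]; congr 1; push_cast; ring
    rw [mul_pow, inv_pow, hexp]
    have := (exp_pos p.2.2).ne'
    field_simp
  have e2 : 8 * ∫ p in {p : ℝ × ℝ × ℝ | 0 < p.2.2},
      ((D1 (U w M) p) ^ 2 + (D2 (U w M) p) ^ 2 + (D3 (U w M) p) ^ 2) =
      ∫ p in S, (8 * ((D1 w p) ^ 2 + (D2 w p) ^ 2) +
        Ah p * (8 * (D3 w p) ^ 2 + 2 * (w p) ^ 2)) := by
    rw [← energy hw hM]
    congr 1
    change ∫ p in H, ((D1 (U w M) p) ^ 2 + (D2 (U w M) p) ^ 2 + (D3 (U w M) p) ^ 2) = _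
    rw [change]
    refine setIntegral_congr_fun S_open.measurableSet fun p hp => ?_
    rw [← grad hw p hp]
    simp only [D1, D2, D3, fderiv_U hM (Psi_mem hp)]
  rw [e1, e2] at main
  exact main

end Pool.Agent.TH597.YT742
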